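import Pool.Agent.MP_4b405e_nt.H19.Disc

/-! Covers by sets of small diameter. -/

namespace Pool.Agent.MP_4b405e_nt.H19

/-- A lower bound for covers by balls gives one for covers by sets of diameter at most `δ`. -/
theorem sets_of_balls {X : Type} [PseudoMetricSpace X] [Inhabited X] {B : Set X} {c γ : ℝ}
    (hc : 0 < c)
    (h : ∀ δ : ℝ, 0 < δ → ∀ S : Finset X, B ⊆ (⋃ x ∈ S, Metric.ball x δ) →
      c * δ ^ (-γ) ≤ (S.card : ℝ))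
    (δ : ℝ) (hδ : 0 < δ) (𝒰 : Finset (Set X)) (hd : ∀ U ∈ 𝒰, ∀ x ∈ U, ∀ y ∈ U, dist x y ≤ δ)
    (hB : B ⊆ ⋃ U ∈ 𝒰, U) : c * 2 ^ (-γ) * δ ^ (-γ) ≤ (𝒰.card : ℝ) := by
  classical
  have _ := hc
  let f : Set X → X := fun U => if hU : U.Nonempty then hU.some else default
  have h1 := h (2 * δ) (by positivity) (𝒰.image f) (by
    intro x hx
    have h2 := hB hx
    simp only [Set.mem_iUnion] at h2 ⊢
    obtain ⟨U, hU, hxU⟩ := h2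
    have hne : U.Nonempty := ⟨x, hxU⟩
    refine ⟨f U, Finset.mem_image.2 ⟨U, hU, rfl⟩, ?_⟩
    have h3 : f U ∈ U := by simp only [f, dif_pos hne]; exact hne.some_mem
    have h4 := hd U hU x hxU _ h3
    rw [Metric.mem_ball]; linarith)
  rw [Real.mul_rpow (by norm_num) hδ.le, ← mul_assoc] at h1
  exact h1.trans (by exact_mod_cast Finset.card_image_le)

/-- The arithmetic Kakeya bound, for covers by sets of diameter at most `δ`. -/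
theorem ap_final {α C : ℝ} (hα : 0 < α) (hC : 0 < C) (h : ∃ k, SDfin α C k) :
    ∃ k : ℕ, ∀ n : ℕ, ∃ c : ℝ, 0 < c ∧ ∀ B : Set (EuclideanSpace ℝ (Fin n)),
      (∀ r : EuclideanSpace ℝ (Fin n), (∀ i, r i ∈ Set.Icc (0 : ℝ) 1) →
        ∃ a : EuclideanSpace ℝ (Fin n), ∀ j : ℕ, j < k → a + (j : ℝ) • r ∈ B) →
      ∀ δ : ℝ, 0 < δ → ∀ 𝒰 : Finset (Set (EuclideanSpace ℝ (Fin n))),
        (∀ U ∈ 𝒰, ∀ x ∈ U, ∀ y ∈ U, dist x y ≤ δ) → B ⊆ (⋃ U ∈ 𝒰, U) →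
        c * δ ^ (-((n : ℝ) / α)) ≤ (𝒰.card : ℝ) := by
  obtain ⟨k, hk⟩ := h
  refine ⟨k, fun n => ?_⟩
  obtain ⟨c, hc, h1⟩ := ap_cover hk hα hC n
  exact ⟨c * 2 ^ (-((n : ℝ) / α)), by positivity, fun B hB δ hδ 𝒰 hd hU =>
    sets_of_balls hc (h1 B hB) δ hδ 𝒰 hd hU⟩

end Pool.Agent.MP_4b405e_nt.H19
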