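import Mathlib

/-! Discretisation: a finite sum-difference bound gives covering-number lower bounds. -/

namespace Pool.Agent.MP_4b405e_nt.H19

open Finset

/-- Finite sum-difference bound with exponent `α`, constant `C` and the `k` positions
`0, …, k-1`: a family of integer progressions `x + i y` with distinct differences `y` whose
`i`-th terms take at most `N` values for each `i < k` has at most `C N ^ α` members. -/
def SDfin (α C : ℝ) (k : ℕ) : Prop :=
  ∀ (m : ℕ) (G : Finset ((Fin m → ℤ) × (Fin m → ℤ))) (N : ℕ),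
    Set.InjOn Prod.snd (G : Set ((Fin m → ℤ) × (Fin m → ℤ))) →
    (∀ i < k, (G.image fun p => p.1 + (i : ℤ) • p.2).card ≤ N) → (G.card : ℝ) ≤ C * (N : ℝ) ^ α

/-- The lattice points near `s / δ`. -/
noncomputable def box {m : ℕ} (δ : ℝ) (s : Fin m → ℝ) : Finset (Fin m → ℤ) :=
  Fintype.piFinset fun j => Finset.Icc (⌊s j / δ⌋ - 2) (⌊s j / δ⌋ + 2)

theorem card_box {m : ℕ} (δ : ℝ) (s : Fin m → ℝ) : (box δ s).card = 5 ^ m := by
  unfold box
  rw [Fintype.card_piFinset]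
  have : ∀ j, (Finset.Icc (⌊s j / δ⌋ - 2) (⌊s j / δ⌋ + 2)).card = 5 := by
    intro j
    rw [Int.card_Icc]
    have : ⌊s j / δ⌋ + 2 + 1 - (⌊s j / δ⌋ - 2) = 5 := by ring
    rw [this]; rfl
  simp [this]

theorem mem_box {m : ℕ} {δ : ℝ} (hδ : 0 < δ) (s p : Fin m → ℝ) (w : Fin m → ℤ) (i : ℕ)
    (h : ∀ j, |p j + i * (δ * w j) - s j| < δ) :
    (fun j => ⌊p j / δ⌋) + (i : ℤ) • w ∈ box δ s := by
  unfold box
  rw [Fintype.mem_piFinset]
  intro j
  have h1 := abs_lt.1 (h j)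
  have e1 : p j / δ + i * w j - s j / δ < 1 := by
    have : p j / δ + i * w j - s j / δ = (p j + i * (δ * w j) - s j) / δ := by field_simp
    rw [this, div_lt_one hδ]; exact h1.2
  have e2 : -1 < p j / δ + i * w j - s j / δ := by
    have : p j / δ + i * w j - s j / δ = (p j + i * (δ * w j) - s j) / δ := by field_simp
    rw [this, lt_div_iff₀ hδ]; linarith [h1.1]
  have f1 := Int.floor_le (p j / δ)
  have f2 := Int.lt_floor_add_one (p j / δ)
  have f3 := Int.floor_le (s j / δ)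
  have f4 := Int.lt_floor_add_one (s j / δ)
  simp only [Pi.add_apply, Pi.smul_apply, smul_eq_mul, Finset.mem_Icc]
  constructor
  · have : ((⌊s j / δ⌋ - 2 : ℤ) : ℝ) ≤ ((⌊p j / δ⌋ + (i : ℤ) * w j : ℤ) : ℝ) := by
      push_cast; linarith
    exact_mod_cast this
  · have : ((⌊p j / δ⌋ + (i : ℤ) * w j : ℤ) : ℝ) ≤ ((⌊s j / δ⌋ + 2 : ℤ) : ℝ) := by
      push_cast; linarith
    exact_mod_cast this

/-- Core discretisation: real progressions with lattice differences `δ w`, `w ∈ D`, whose `i`-th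
terms are `δ`-close (in every coordinate) to one of at most `N` points. -/
theorem core {α C : ℝ} {k : ℕ} (hSD : SDfin α C k) {m : ℕ} {δ : ℝ} (hδ : 0 < δ)
    (D : Finset (Fin m → ℤ)) (p : (Fin m → ℤ) → Fin m → ℝ) {ι : Type} (T : ℕ → Finset ι)
    (c : ι → Fin m → ℝ) (N : ℕ) (hN : ∀ i < k, (T i).card ≤ N)
    (hT : ∀ w ∈ D, ∀ i < k, ∃ s ∈ T i, ∀ j, |p w j + i * (δ * w j) - c s j| < δ) :
    (D.card : ℝ) ≤ C * ((5 ^ m * N : ℕ) : ℝ) ^ α := by
  classical
  let f : (Fin m → ℤ) → (Fin m → ℤ) × (Fin m → ℤ) := fun w => (fun j => ⌊p w j / δ⌋, w)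
  have hf : Function.Injective f := fun a b h => congrArg Prod.snd h
  have h1 : (D.image f).card = D.card := Finset.card_image_of_injective _ hf
  rw [← h1]
  refine hSD m (D.image f) _ ?_ ?_
  · intro a ha b hb hab
    simp only [Finset.coe_image, Set.mem_image, Finset.mem_coe] at ha hb
    obtain ⟨w, -, rfl⟩ := ha
    obtain ⟨w', -, rfl⟩ := hb
    have : w = w' := hab
    rw [this]
  · intro i hi
    have hsub : ((D.image f).image fun q => q.1 + (i : ℤ) • q.2) ⊆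
        (T i).biUnion fun s => box δ (c s) := by
      intro z hz
      simp only [Finset.mem_image] at hz
      obtain ⟨q, ⟨w, hw, rfl⟩, rfl⟩ := hz
      obtain ⟨s, hs, hc⟩ := hT w hw i hi
      exact Finset.mem_biUnion.2 ⟨s, hs, mem_box hδ (c s) (p w) w i hc⟩
    calc _ ≤ ((T i).biUnion fun s => box δ (c s)).card := Finset.card_le_card hsub
      _ ≤ ∑ s ∈ T i, (box δ (c s)).card := Finset.card_biUnion_le
      _ = (T i).card * 5 ^ m := by simp [card_box]
      _ ≤ 5 ^ m * N := by rw [mul_comm]; exact Nat.mul_le_mul_left _ (hN i hi)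

/-- The lattice points of the cube `[0, L]^m`. -/
noncomputable def grid (m : ℕ) (L : ℝ) : Finset (Fin m → ℤ) :=
  Fintype.piFinset fun _ => Finset.Icc 0 ⌊L⌋

theorem le_card_grid (m : ℕ) {L : ℝ} (hL : 0 ≤ L) : L ^ m ≤ ((grid m L).card : ℝ) := by
  unfold grid
  rw [Fintype.card_piFinset]
  simp only [Int.card_Icc, Finset.prod_const, Finset.card_univ, Fintype.card_fin]
  push_cast
  refine pow_le_pow_left₀ hL ?_ m
  have h0 : 0 ≤ ⌊L⌋ := Int.floor_nonneg.2 hL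
  have h1 : (((⌊L⌋ + 1 - 0).toNat : ℤ) : ℝ) = ⌊L⌋ + 1 := by
    rw [Int.toNat_of_nonneg (by omega)]; push_cast; ring
  have h2 := Int.lt_floor_add_one L
  have h3 : (((⌊L⌋ + 1 - 0).toNat : ℕ) : ℝ) = (((⌊L⌋ + 1 - 0).toNat : ℤ) : ℝ) := by norm_cast
  rw [h3, h1]; exact h2.le

theorem mem_grid {m : ℕ} {L : ℝ} {w : Fin m → ℤ} (hw : w ∈ grid m L) (j : Fin m) :
    (0 : ℝ) ≤ w j ∧ (w j : ℝ) ≤ L := by
  unfold grid at hw
  have := Finset.mem_Icc.1 (Fintype.mem_piFinset.1 hw j)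
  exact ⟨by exact_mod_cast this.1, le_trans (by exact_mod_cast this.2) (Int.floor_le L)⟩

theorem abs_coord_lt {n : ℕ} {x s : EuclideanSpace ℝ (Fin n)} {δ : ℝ} (h : x ∈ Metric.ball s δ)
    (j : Fin n) : |x j - s j| < δ := by
  have h1 : ‖(x - s) j‖ ≤ ‖x - s‖ := PiLp.norm_apply_le (x - s) j
  rw [Metric.mem_ball, dist_eq_norm] at h
  simpa using lt_of_le_of_lt h1 h

/-- Solving `A ≤ C (b x) ^ α` for `x`. -/
theorem solve {α C A b x : ℝ} (hα : 0 < α) (hC : 0 < C) (hA : 0 ≤ A) (hb : 0 < b) (hx : 0 ≤ x)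
    (h : A ≤ C * (b * x) ^ α) : (A / C) ^ (1 / α) / b ≤ x := by
  rw [div_le_iff₀ hb]
  have h1 : A / C ≤ (b * x) ^ α := by rw [div_le_iff₀ hC]; linarith
  have h2 : (A / C) ^ (1 / α) ≤ ((b * x) ^ α) ^ (1 / α) :=
    Real.rpow_le_rpow (by positivity) h1 (by positivity)
  rw [← Real.rpow_mul (by positivity), mul_one_div_cancel hα.ne', Real.rpow_one] at h2
  linarith

/-- Sets with `k`-term progressions of every difference in the unit cube need at least
`c δ ^ (-n / α)` balls of radius `δ`. -/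
theorem ap_cover {α C : ℝ} {k : ℕ} (hSD : SDfin α C k) (hα : 0 < α) (hC : 0 < C) (n : ℕ) :
    ∃ c : ℝ, 0 < c ∧ ∀ B : Set (EuclideanSpace ℝ (Fin n)),
      (∀ d : EuclideanSpace ℝ (Fin n), (∀ i, d i ∈ Set.Icc (0 : ℝ) 1) →
        ∃ a : EuclideanSpace ℝ (Fin n), ∀ j : ℕ, j < k → a + (j : ℝ) • d ∈ B) →
      ∀ δ : ℝ, 0 < δ → ∀ S : Finset (EuclideanSpace ℝ (Fin n)),
        B ⊆ (⋃ x ∈ S, Metric.ball x δ) → c * δ ^ (-((n : ℝ) / α)) ≤ (S.card : ℝ) := by
  refine ⟨(1 / C) ^ (1 / α) / 5 ^ n, by positivity, fun B hB δ hδ S hS => ?_⟩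
  have hex : ∀ w : Fin n → ℤ, ∃ a : EuclideanSpace ℝ (Fin n), w ∈ grid n (1 / δ) →
      ∀ j : ℕ, j < k → a + (j : ℝ) • (WithLp.toLp 2 fun i => δ * w i) ∈ B := by
    intro w
    by_cases hw : w ∈ grid n (1 / δ)
    · obtain ⟨a, ha⟩ := hB (WithLp.toLp 2 fun i => δ * w i) fun i => by
        have := mem_grid hw i
        refine ⟨mul_nonneg hδ.le this.1, ?_⟩
        have h2 := this.2
        rw [le_div_iff₀ hδ] at h2
        simpa [mul_comm] using h2
      exact ⟨a, fun _ => ha⟩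
    · exact ⟨0, fun h => absurd h hw⟩
  choose a ha using hex
  have key := core hSD hδ (grid n (1 / δ)) (fun w j => a w j) (fun _ => S) (fun s j => s j) S.card
    (fun _ _ => le_rfl) (by
      intro w hw i hi
      have h1 := hS (ha w hw i hi)
      simp only [Set.mem_iUnion] at h1
      obtain ⟨s, hs, h2⟩ := h1
      refine ⟨s, hs, fun j => ?_⟩
      simpa using abs_coord_lt h2 j)
  have h1 := le_card_grid n (L := 1 / δ) (by positivity)
  have h2 : (1 / δ) ^ n ≤ C * ((5 : ℝ) ^ n * S.card) ^ α := by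
    have := h1.trans key
    push_cast at this
    exact this
  have h3 := solve hα hC (by positivity) (by positivity) (by positivity) h2
  refine le_trans (le_of_eq ?_) h3
  have e : ((1 / δ) ^ n / C) ^ (1 / α) = (1 / C) ^ (1 / α) * δ ^ (-((n : ℝ) / α)) := by
    rw [show (1 / δ) ^ n / C = 1 / C * (δ ^ (-(n : ℝ))) by
      rw [Real.rpow_neg hδ.le, Real.rpow_natCast, one_div δ, inv_pow]; ring]
    rw [Real.mul_rpow (by positivity) (by positivity), ← Real.rpow_mul hδ.le]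
    congr 2; ring
  rw [e]; ring

/-- Absorbing the constant: for `γ < γ'` and small `δ`, `δ ^ (-γ) ≤ c δ ^ (-γ')`. -/
theorem absorb {c γ γ' : ℝ} (hc : 0 < c) (h : γ < γ') :
    ∃ δ₁ : ℝ, 0 < δ₁ ∧ ∀ δ : ℝ, 0 < δ → δ < δ₁ → δ ^ (-γ) ≤ c * δ ^ (-γ') := by
  have he : 0 < γ' - γ := by linarith
  refine ⟨c ^ (1 / (γ' - γ)), by positivity, fun δ hδ h1 => ?_⟩
  have h2 : δ ^ (γ' - γ) ≤ (c ^ (1 / (γ' - γ))) ^ (γ' - γ) :=
    Real.rpow_le_rpow hδ.le h1.le he.le
  rw [← Real.rpow_mul hc.le, one_div_mul_cancel he.ne', Real.rpow_one] at h2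
  have h3 : δ ^ (-γ) = δ ^ (γ' - γ) * δ ^ (-γ') := by
    rw [← Real.rpow_add hδ]; congr 1; ring
  rw [h3]
  exact mul_le_mul_of_nonneg_right h2 (by positivity)

end Pool.Agent.MP_4b405e_nt.H19
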